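import Mathlib

/-! The comparison lemma for free resolutions over a group, and its descent to coinvariants. -/

namespace Pool.Agent.Lib.MP_b65ff2_gt.V

open Function

variable {G : Type} [Group G]

/-- A free resolution of the trivial module. -/
structure Res (G : Type) [Group G] where
  A : ℕ → Type
  [acg : ∀ n, AddCommGroup (A n)]
  [mod : ∀ n, Module ℤ (A n)]
  ρ : ∀ n, G → A n →ₗ[ℤ] A n
  ρ_one : ∀ n x, ρ n 1 x = x
  ρ_mul : ∀ n g h x, ρ n (g * h) x = ρ n g (ρ n h x)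
  d : ∀ n, A (n + 1) →ₗ[ℤ] A n
  ε : A 0 →ₗ[ℤ] ℤ
  d_eq : ∀ n g x, d n (ρ (n + 1) g x) = ρ n g (d n x)
  ε_eq : ∀ g x, ε (ρ 0 g x) = ε x
  dd : ∀ n x, d n (d (n + 1) x) = 0
  ex : ∀ n x, d n x = 0 → ∃ y, d (n + 1) y = x
  ex0 : ∀ x, ε x = 0 ↔ ∃ y, d 0 y = x
  surj : Surjective ε
  free : ∀ n, ∃ (S : Type) (_ : MulAction G S) (b : Module.Basis S ℤ (A n)),
    (∀ (g : G) (s : S), g • s = s → g = 1) ∧ ∀ g s, ρ n g (b s) = b (g • s)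

attribute [instance] Res.acg Res.mod

/-- The coinvariants of a resolution under a subgroup. -/
structure Quo (P : Res G) (N : Subgroup G) where
  B : ℕ → Type
  [acg : ∀ n, AddCommGroup (B n)]
  [mod : ∀ n, Module ℤ (B n)]
  π : ∀ n, P.A n →ₗ[ℤ] B n
  e : ∀ n, B (n + 1) →ₗ[ℤ] B n
  comm : ∀ n x, e n (π (n + 1) x) = π n (P.d n x)
  surj : ∀ n, Surjective (π n)
  inv : ∀ n, ∀ g ∈ N, ∀ x, π n (P.ρ n g x) = π n x
  desc : ∀ n (T : Type) [AddCommGroup T] [Module ℤ T] (F : P.A n →ₗ[ℤ] T),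
    (∀ g ∈ N, ∀ x, F (P.ρ n g x) = F x) → ∃ F' : B n →ₗ[ℤ] T, ∀ x, F' (π n x) = F x

attribute [instance] Quo.acg Quo.mod

/-- Descent along a map of bases. -/
lemma desc_of_basis {A B S S' : Type} [AddCommGroup A] [Module ℤ A] [AddCommGroup B] [Module ℤ B]
    (b : Module.Basis S ℤ A) (b' : Module.Basis S' ℤ B) (q : S → S') (hq : Surjective q)
    (π : A →ₗ[ℤ] B) (hπ : ∀ s, π (b s) = b' (q s)) :
    Surjective π ∧ ∀ (T : Type) [AddCommGroup T] [Module ℤ T] (F : A →ₗ[ℤ] T),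
      (∀ s t, q s = q t → F (b s) = F (b t)) → ∃ F' : B →ₗ[ℤ] T, ∀ x, F' (π x) = F x := by
  choose r hr using hq
  refine ⟨fun y => ⟨b'.constr ℕ (fun s => b (r s)) y, ?_⟩, fun T _ _ F hF =>
    ⟨b'.constr ℕ fun s => F (b (r s)), fun x => ?_⟩⟩
  · exact LinearMap.congr_fun (b'.ext (f₁ := π ∘ₗ b'.constr ℕ fun s => b (r s))
      (f₂ := LinearMap.id) fun s => by simp [hπ, hr]) y
  · exact LinearMap.congr_fun (b.ext (f₁ := (b'.constr ℕ fun s => F (b (r s))) ∘ₗ π) (f₂ := F)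
      fun s => by simpa [hπ] using hF _ _ (hr _)) x

/-- Equivariant lifting. -/
lemma Res.lift (P : Res G) (n : ℕ) {Q T : Type} [AddCommGroup Q] [Module ℤ Q] [AddCommGroup T]
    [Module ℤ T] (σ : G → Q →ₗ[ℤ] Q) (hσ : ∀ g h x, σ (g * h) x = σ g (σ h x))
    (τ : G → T →ₗ[ℤ] T) (f : P.A n →ₗ[ℤ] T) (hf : ∀ g x, f (P.ρ n g x) = τ g (f x))
    (d : Q →ₗ[ℤ] T) (hd : ∀ g x, d (σ g x) = τ g (d x)) (h : ∀ x, ∃ y, d y = f x) :
    ∃ φ : P.A n →ₗ[ℤ] Q, (∀ g x, φ (P.ρ n g x) = σ g (φ x)) ∧ ∀ x, d (φ x) = f x := by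
  obtain ⟨S, _, b, fr, hb⟩ := P.free n
  choose y hy using h
  let r : S → S := fun s => (Quotient.mk (MulAction.orbitRel G S) s).out
  have hr : ∀ s, ∃ g : G, g • r s = s := fun s => by
    have : MulAction.orbitRel G S s (r s) := (MulAction.orbitRel G S).symm (Quotient.mk_out s)
    exact this
  choose c hc using hr
  have hr : ∀ (g : G) s, r (g • s) = r s := fun g s =>
    congrArg Quotient.out (Quotient.sound (⟨g, rfl⟩ : MulAction.orbitRel G S (g • s) s))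
  have hc' : ∀ (g : G) s, c (g • s) = g * c s := fun g s => by
    have h1 := hc (g • s)
    rw [hr] at h1
    have : ((g * c s)⁻¹ * c (g • s)) • r s = r s := by
      rw [mul_smul, h1, inv_smul_eq_iff, mul_smul, hc]
    exact (inv_mul_eq_one.1 (fr _ _ this)).symm
  refine ⟨b.constr ℕ fun s => σ (c s) (y (b (r s))), fun g x => ?_, fun x => ?_⟩
  · exact LinearMap.congr_fun (b.ext
      (f₁ := (b.constr ℕ fun s => σ (c s) (y (b (r s)))) ∘ₗ P.ρ n g)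
      (f₂ := σ g ∘ₗ b.constr ℕ fun s => σ (c s) (y (b (r s))))
      fun s => by simp [hb, hc', hr, hσ]) x
  · exact LinearMap.congr_fun (b.ext (f₁ := d ∘ₗ b.constr ℕ fun s => σ (c s) (y (b (r s))))
      (f₂ := f) fun s => by simp [hd, hy, ← hf, hb, hc]) x

/-- Equivariant maps. -/
def Eqv (P Q : Res G) {n m : ℕ} (φ : P.A n →ₗ[ℤ] Q.A m) : Prop :=
  ∀ g x, φ (P.ρ n g x) = Q.ρ m g (φ x)

/-- A chain map over the augmentations. -/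
lemma Res.exists_map (P Q : Res G) : ∃ φ : ∀ n, P.A n →ₗ[ℤ] Q.A n, (∀ n, Eqv P Q (φ n)) ∧
    (∀ x, Q.ε (φ 0 x) = P.ε x) ∧ ∀ n x, Q.d n (φ (n + 1) x) = φ n (P.d n x) := by
  obtain ⟨φ0, e0, h0⟩ := P.lift 0 (Q.ρ 0) (Q.ρ_mul 0) (fun _ => LinearMap.id) P.ε P.ε_eq Q.ε Q.ε_eq
    fun x => Q.surj _
  let T : ℕ → Type := fun n =>
    {φ : P.A n →ₗ[ℤ] Q.A n // Eqv P Q φ ∧ ∀ x, ∃ y, Q.d n y = φ (P.d n x)}
  have step : ∀ n (φ : T n), ∃ ψ : T (n + 1), ∀ x, Q.d n (ψ.1 x) = φ.1 (P.d n x) := fun n φ => by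
    obtain ⟨ψ, e1, h1⟩ := P.lift (n + 1) (Q.ρ (n + 1)) (Q.ρ_mul _) (Q.ρ n) (φ.1 ∘ₗ P.d n)
      (fun g x => by simp only [LinearMap.comp_apply]; rw [P.d_eq, φ.2.1]) (Q.d n) (Q.d_eq n) φ.2.2
    refine ⟨⟨ψ, e1, fun x => Q.ex n _ ?_⟩, h1⟩
    rw [h1, LinearMap.comp_apply, P.dd, map_zero]
  choose st hst using step
  let t : ∀ n, T n := fun n => Nat.rec ⟨φ0, e0, fun x => (Q.ex0 _).1 (by
    rw [h0]; exact (P.ex0 _).2 ⟨x, rfl⟩)⟩ st n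
  exact ⟨fun n => (t n).1, fun n => (t n).2.1, h0, fun n => hst n (t n)⟩

/-- A chain map over zero is null homotopic. -/
lemma Res.exists_htpy (P : Res G) (f : ∀ n, P.A n →ₗ[ℤ] P.A n) (ef : ∀ n, Eqv P P (f n))
    (f0 : ∀ x, P.ε (f 0 x) = 0) (fd : ∀ n x, P.d n (f (n + 1) x) = f n (P.d n x)) :
    ∃ h : ∀ n, P.A n →ₗ[ℤ] P.A (n + 1), (∀ n, Eqv P P (h n)) ∧ (∀ x, P.d 0 (h 0 x) = f 0 x) ∧
      ∀ n x, P.d (n + 1) (h (n + 1) x) = f (n + 1) x - h n (P.d n x) := by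
  obtain ⟨h0, e0, k0⟩ := P.lift 0 (P.ρ 1) (P.ρ_mul 1) (P.ρ 0) (f 0) (ef 0) (P.d 0) (P.d_eq 0)
    fun x => (P.ex0 _).1 (f0 x)
  let T : ℕ → Type := fun n => {h : P.A n →ₗ[ℤ] P.A (n + 1) //
    Eqv P P h ∧ ∀ x, P.d n (f (n + 1) x - h (P.d n x)) = 0}
  have step : ∀ n (h : T n), ∃ k : T (n + 1),
      ∀ x, P.d (n + 1) (k.1 x) = f (n + 1) x - h.1 (P.d n x) := fun n h => by
    obtain ⟨k, e1, h1⟩ := P.lift (n + 1) (P.ρ (n + 2)) (P.ρ_mul _) (P.ρ (n + 1))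
      (f (n + 1) - h.1 ∘ₗ P.d n) (fun g x => by
        simp only [LinearMap.sub_apply, LinearMap.comp_apply]
        rw [P.d_eq, h.2.1, ef, map_sub]) (P.d (n + 1)) (P.d_eq _) fun x => P.ex n _ (h.2.2 x)
    refine ⟨⟨k, e1, fun x => ?_⟩, h1⟩
    rw [map_sub, fd, h1, LinearMap.sub_apply, LinearMap.comp_apply, P.dd, map_zero, sub_zero,
      sub_self]
  choose st hst using step
  let t : ∀ n, T n := fun n => Nat.rec ⟨h0, e0, fun x => by rw [map_sub, fd, k0, sub_self]⟩ st n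
  exact ⟨fun n => (t n).1, fun n => (t n).2.1, k0, fun n => hst n (t n)⟩

variable {P Q : Res G} {N : Subgroup G}

/-- Cycles of the coinvariants. -/
def Quo.Z (P' : Quo P N) : ∀ n, Submodule ℤ (P'.B n)
  | 0 => ⊤
  | n + 1 => LinearMap.ker (P'.e n)

/-- `H` is the homology in degree `n`. -/
def Quo.IsH (P' : Quo P N) (n : ℕ) (H : Type) [AddCommGroup H] : Prop :=
  ∃ cl : P'.Z n →+ H, Surjective cl ∧ ∀ z, cl z = 0 ↔ ∃ y, P'.e n y = z.1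

lemma Quo.down (P' : Quo P N) (Q' : Quo Q N) {n m : ℕ} {φ : P.A n →ₗ[ℤ] Q.A m} (h : Eqv P Q φ) :
    ∃ φ' : P'.B n →ₗ[ℤ] Q'.B m, ∀ x, φ' (P'.π n x) = Q'.π m (φ x) :=
  P'.desc n _ (Q'.π m ∘ₗ φ) fun g hg x => by
    simp only [LinearMap.comp_apply]
    rw [h, Q'.inv m g hg]

lemma Quo.down_map (P' : Quo P N) (Q' : Quo Q N) {φ : ∀ n, P.A n →ₗ[ℤ] Q.A n}
    (hd : ∀ n x, Q.d n (φ (n + 1) x) = φ n (P.d n x)) {φ' : ∀ n, P'.B n →ₗ[ℤ] Q'.B n}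
    (h : ∀ n x, φ' n (P'.π n x) = Q'.π n (φ n x)) :
    (∀ n x, Q'.e n (φ' (n + 1) x) = φ' n (P'.e n x)) ∧ ∀ n, ∀ z ∈ P'.Z n, φ' n z ∈ Q'.Z n := by
  have h1 : ∀ n x, Q'.e n (φ' (n + 1) x) = φ' n (P'.e n x) := fun n x => by
    obtain ⟨x, rfl⟩ := P'.surj _ x
    rw [h, Q'.comm, hd, P'.comm, h]
  refine ⟨h1, fun n z hz => ?_⟩
  cases n with
  | zero => trivial
  | succ n =>
    change Q'.e n _ = 0
    rw [h1, show P'.e n z = 0 from hz, map_zero]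

lemma Quo.down_id (P' : Quo P N) {f : ∀ n, P.A n →ₗ[ℤ] P.A n} (ef : ∀ n, Eqv P P (f n))
    (f0 : ∀ x, P.ε (f 0 x) = P.ε x) (fd : ∀ n x, P.d n (f (n + 1) x) = f n (P.d n x))
    {f' : ∀ n, P'.B n →ₗ[ℤ] P'.B n} (h : ∀ n x, f' n (P'.π n x) = P'.π n (f n x)) (n : ℕ) :
    ∀ z ∈ P'.Z n, ∃ y, P'.e n y = f' n z - z := by
  obtain ⟨k, ek, k0, k1⟩ := P.exists_htpy (fun n => f n - LinearMap.id)
    (fun n g x => by simp only [LinearMap.sub_apply, LinearMap.id_apply]; rw [ef, map_sub])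
    (fun x => by simp [f0]) fun n x => by simp [fd]
  choose k' hk using fun n => P'.down P' (ek n)
  intro z hz
  refine ⟨k' n z, ?_⟩
  obtain ⟨x, rfl⟩ := P'.surj _ z
  cases n with
  | zero => simp [hk, P'.comm, k0, h]
  | succ n =>
    have : P'.π n (P.d n x) = 0 := by rw [← P'.comm]; exact hz
    rw [hk, P'.comm, k1, map_sub, ← hk, this, map_zero, sub_zero, h]
    simp

lemma Quo.hom_map (P' : Quo P N) (Q' : Quo Q N) {n : ℕ} {H H' : Type} [AddCommGroup H]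
    [AddCommGroup H'] {cl : P'.Z n →+ H} (s : Surjective cl)
    (k : ∀ z, cl z = 0 ↔ ∃ y, P'.e n y = z.1) {cl' : Q'.Z n →+ H'}
    (k' : ∀ z, cl' z = 0 ↔ ∃ y, Q'.e n y = z.1) {φ : ∀ n, P'.B n →ₗ[ℤ] Q'.B n}
    (h1 : ∀ n x, Q'.e n (φ (n + 1) x) = φ n (P'.e n x)) (h2 : ∀ z ∈ P'.Z n, φ n z ∈ Q'.Z n) :
    ∃ F : H →+ H', ∀ z, F (cl z) = cl' ⟨φ n z, h2 z z.2⟩ := by
  let g : P'.Z n →+ H' := cl'.comp ((φ n).restrict h2).toAddMonoidHom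
  refine ⟨cl.liftOfSurjective s ⟨g, fun z hz => ?_⟩, fun z =>
    cl.liftOfRightInverse_comp_apply _ _ _ z⟩
  obtain ⟨y, hy⟩ := (k z).1 hz
  exact (k' _).2 ⟨φ _ y, by rw [h1, hy]; rfl⟩

/-- The homology of the coinvariants does not depend on the resolution. -/
theorem Quo.equiv (P' : Quo P N) (Q' : Quo Q N) {n : ℕ} {H H' : Type} [AddCommGroup H]
    [AddCommGroup H'] (h : P'.IsH n H) (h' : Q'.IsH n H') : Nonempty (H ≃+ H') := by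
  obtain ⟨cl, s, k⟩ := h
  obtain ⟨cl', s', k'⟩ := h'
  obtain ⟨φ, eφ, φ0, φd⟩ := P.exists_map Q
  obtain ⟨ψ, eψ, ψ0, ψd⟩ := Q.exists_map P
  choose φ' hφ using fun n => P'.down Q' (eφ n)
  choose ψ' hψ using fun n => Q'.down P' (eψ n)
  obtain ⟨a1, a2⟩ := P'.down_map Q' φd hφ
  obtain ⟨b1, b2⟩ := Q'.down_map P' ψd hψ
  obtain ⟨F, hF⟩ := P'.hom_map Q' s k k' a1 (a2 n)
  obtain ⟨F', hF'⟩ := Q'.hom_map P' s' k' k b1 (b2 n)
  have c1 := P'.down_id (f := fun n => ψ n ∘ₗ φ n) (f' := fun n => ψ' n ∘ₗ φ' n)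
    (fun n g x => by simp only [LinearMap.comp_apply]; rw [eφ, eψ]) (fun x => by simp [φ0, ψ0])
    (fun n x => by simp [φd, ψd]) (fun n x => by simp [hφ, hψ]) n
  have c2 := Q'.down_id (f := fun n => φ n ∘ₗ ψ n) (f' := fun n => φ' n ∘ₗ ψ' n)
    (fun n g x => by simp only [LinearMap.comp_apply]; rw [eψ, eφ]) (fun x => by simp [φ0, ψ0])
    (fun n x => by simp [φd, ψd]) (fun n x => by simp [hφ, hψ]) n
  refine ⟨AddMonoidHom.toAddEquiv F F' (AddMonoidHom.ext fun x => ?_)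
    (AddMonoidHom.ext fun x => ?_)⟩
  · obtain ⟨z, rfl⟩ := s x
    rw [AddMonoidHom.comp_apply, hF, hF', AddMonoidHom.id_apply, ← sub_eq_zero, ← map_sub, k]
    exact c1 z z.2
  · obtain ⟨z, rfl⟩ := s' x
    rw [AddMonoidHom.comp_apply, hF', hF, AddMonoidHom.id_apply, ← sub_eq_zero, ← map_sub, k']
    exact c2 z z.2

end Pool.Agent.Lib.MP_b65ff2_gt.V
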