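import Mathlib

/-! A space with a contractible covering space has trivial higher homotopy groups. -/

namespace Pool.Agent.Lib.MP_b65ff2_gt.V

open Function Set Topology unitInterval

variable {X M : Type} [TopologicalSpace X] [TopologicalSpace M]

/-- Projection to the unit interval. -/
noncomputable def pj : C(ℝ, I) := ⟨projIcc 0 1 zero_le_one, continuous_projIcc⟩

lemma pj_le {a : ℝ} (h : a ≤ 0) : pj a = 0 := projIcc_of_le_left zero_le_one h

lemma pj_ge {a : ℝ} (h : 1 ≤ a) : pj a = 1 := projIcc_of_right_le zero_le_one h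

lemma pj_coe (t : I) : pj t = t := projIcc_val zero_le_one t

variable {N : Type} [Fintype N]

/-- A cut off function on the cube. -/
noncomputable def cut (N : Type) [Fintype N] : C(N → I, I) :=
  ⟨fun t => pj (∏ i, (pj (min (3 * t i) (3 - 3 * t i)) : ℝ)), by fun_prop⟩

/-- Stretching the cube. -/
noncomputable def str (N : Type) : C(I × (N → I), N → I) :=
  ⟨fun q i => pj ((1 + 2 * q.1) * q.2 i - q.1), by fun_prop⟩

lemma cut_bd {t : N → I} (h : t ∈ Cube.boundary N) : cut N t = 0 := by
  obtain ⟨i, hi⟩ := h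
  refine pj_le (Finset.prod_eq_zero (Finset.mem_univ i) ?_).le
  rw [pj_le]
  · rfl
  · rcases hi with hi | hi <;> simp [hi]

omit [Fintype N] in
lemma str_bd (s : I) {t : N → I} (h : t ∈ Cube.boundary N) : str N (s, t) ∈ Cube.boundary N := by
  obtain ⟨i, hi⟩ := h
  have := s.2.1
  refine ⟨i, hi.imp (fun hi => pj_le ?_) fun hi => pj_ge ?_⟩
  · simpa [hi] using this
  · simp only [hi, Icc.coe_one]
    linarith

lemma str_one {t : N → I} (h : cut N t ≠ 1) : str N (1, t) ∈ Cube.boundary N := by
  by_contra c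
  refine h (pj_ge (Finset.prod_eq_one fun i _ => ?_).ge)
  rw [pj_ge]
  · rfl
  · refine le_min ?_ ?_ <;> by_contra k <;> refine c ⟨i, ?_⟩
    · refine Or.inl (pj_le ?_)
      simp only [Icc.coe_one]
      linarith
    · refine Or.inr (pj_ge ?_)
      simp only [Icc.coe_one]
      linarith

lemma loop_contr [ContractibleSpace X] {e : X} (f g : C(N → I, X))
    (hf : ∀ t ∈ Cube.boundary N, f t = e) (hg : ∀ t ∈ Cube.boundary N, g t = e) :
    f.HomotopicRel g (Cube.boundary N) := by
  obtain ⟨y, ⟨H⟩⟩ := id_nullhomotopic X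
  have key : ∀ f : C(N → I, X), (∀ t ∈ Cube.boundary N, f t = e) →
      f.HomotopicRel ⟨fun t => H (cut N t, e), by fun_prop⟩ (Cube.boundary N) := fun f hf =>
    ⟨{ toFun := fun q => H (pj (q.1 * cut N q.2), f (str N q))
       continuous_toFun := by fun_prop
       map_zero_left := fun t => by
        have : str N (0, t) = t := funext fun i => by simpa [str] using pj_coe (t i)
        simp [pj_le, this]
       map_one_left := fun t => by
        simp only [Icc.coe_one, one_mul, pj_coe, ContinuousMap.coe_mk]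
        by_cases c : cut N t = 1
        · simp [c]
        · rw [hf _ (str_one c)]
       prop' := fun s t ht => by
        simp [cut_bd ht, pj_le, hf _ (str_bd s ht), hf t ht] }⟩
  exact (key f hf).trans (key g hg).symm

theorem asph [ContractibleSpace X] {p : X → M} (cov : IsCoveringMap p) (e : X) (n : ℕ) :
    Subsingleton (π_ (n + 2) M (p e)) := by
  let P : C(X, M) := ⟨p, cov.continuous⟩
  have key : ∀ f : GenLoop (Fin (n + 2)) M (p e), ∃ F : C(Fin (n + 2) → I, X),
      P.comp F = f.1 ∧ ∀ t ∈ Cube.boundary _, F t = e := fun f => by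
    let f' : C(Fin (n + 2) → ℝ, M) := f.1.comp ⟨fun v i => pj (v i), by fun_prop⟩
    obtain ⟨F', ⟨h0, hF⟩, -⟩ := cov.existsUnique_continuousMap_lifts f' 0 e
      (f.2 _ ⟨0, Or.inl (pj_le le_rfl)⟩).symm
    let F : C(Fin (n + 2) → I, X) := F'.comp ⟨fun t i => t i, by fun_prop⟩
    have hp : ∀ t, p (F t) = f.1 t := fun t =>
      (congrFun hF _).trans (congrArg f.1 (funext fun i => pj_coe (t i)))
    have face : ∀ i (c : I), c = 0 ∨ c = 1 → ∀ t t', t i = c → t' i = c → F t = F t' :=
      fun i c hc t t' ht ht' => by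
        have hb : ∀ t, p (F (update t i c)) = p e := fun t =>
          (hp _).trans (f.2 _ ⟨i, by simpa using hc⟩)
        have := cov.const_of_comp (g := fun t => F (update t i c)) (by fun_prop)
          (fun a b => (hb a).trans (hb b).symm) t t'
        rwa [update_eq_self_iff.2 ht.symm, update_eq_self_iff.2 ht'.symm] at this
    have z : ∀ i t, t i = 0 → F t = e := fun i t ht =>
      (face i 0 (Or.inl rfl) t 0 ht rfl).trans h0
    refine ⟨F, ContinuousMap.ext hp, fun t ⟨i, hi⟩ => hi.elim (z i t) fun hi => ?_⟩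
    obtain ⟨j, hj⟩ := exists_ne i
    exact (face i 1 (Or.inr rfl) t (Pi.single i 1) hi (by simp)).trans (z j _ (by simp [hj]))
  refine ⟨fun a b => Quotient.inductionOn₂ a b fun f g => Quotient.sound ?_⟩
  obtain ⟨F, hF, bF⟩ := key f
  obtain ⟨F', hG, bG⟩ := key g
  change f.1.HomotopicRel g.1 _
  rw [← hF, ← hG]
  exact (loop_contr F F' bF bG).comp_continuousMap P

end Pool.Agent.Lib.MP_b65ff2_gt.V
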