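import Pool.Agent.Lib.MP_b65ff2_gt.V.Alg
import Pool.Agent.Lib.MP_b65ff2_gt.NDef

/-! A finite based free resolution as a `Res`, and its coinvariants. -/

namespace Pool.Agent.Lib.MP_b65ff2_gt.V

open Function Matrix

set_option linter.unusedSectionVars false

variable {I R : Type} [Fintype I] [DecidableEq I] [Ring R] {deg : I → ℕ}

/-- Cells of degree `n`. -/
abbrev Ce (deg : I → ℕ) (n : ℕ) : Type := {i // deg i = n}

/-- Extension by zero. -/
def ext0 (R : Type) [Ring R] (deg : I → ℕ) (n : ℕ) : (Ce deg n → R) →ₗ[ℤ] (I → R) where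
  toFun x i := if h : deg i = n then x ⟨i, h⟩ else 0
  map_add' x y := funext fun i => by by_cases h : deg i = n <;> simp [h]
  map_smul' a x := funext fun i => by by_cases h : deg i = n <;> simp [h]

lemma ext0_pos {n : ℕ} (x : Ce deg n → R) (i : Ce deg n) : ext0 R deg n x i.1 = x i := dif_pos i.2

lemma ext0_neg {n : ℕ} (x : Ce deg n → R) {i : I} (h : deg i ≠ n) : ext0 R deg n x i = 0 := dif_neg h

lemma ext0_inj {n : ℕ} : Injective (ext0 R deg n) := fun x y h =>
  funext fun i => by rw [← ext0_pos x, ← ext0_pos y, h]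

lemma mem_chains {n : ℕ} {x : I → R} : x ∈ chains R deg n ↔ ∃ y, ext0 R deg n y = x := by
  refine ⟨fun h => ⟨fun i => x i.1, funext fun i => ?_⟩, fun ⟨y, hy⟩ i hi => hy ▸ ext0_neg y hi⟩
  by_cases c : deg i = n
  · exact ext0_pos (fun i : Ce deg n => x i.1) ⟨i, c⟩
  · exact (ext0_neg _ c).trans (h i c).symm

lemma sum_ext0 {M : Type} [AddCommMonoid M] {n : ℕ} (x : Ce deg n → R) (F : I → R → M)
    (h : ∀ i, F i 0 = 0) : ∑ i, F i (ext0 R deg n x i) = ∑ i : Ce deg n, F i.1 (x i) := by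
  rw [← Finset.sum_filter_of_ne (p := fun i => deg i = n) fun i _ e => by
    by_contra c
    exact e (by rw [ext0_neg x c, h]),
    Finset.sum_subtype (p := fun i => deg i = n) _ (by simp)]
  exact Finset.sum_congr rfl fun i _ => by rw [ext0_pos]

/-- The boundary in degree `n + 1`. -/
def dd (deg : I → ℕ) (d : Matrix I I R) (n : ℕ) : (Ce deg (n + 1) → R) →ₗ[ℤ] (Ce deg n → R) :=
  (d.submatrix Subtype.val Subtype.val).vecMulLinear.restrictScalars ℤ

lemma dd_apply (d : Matrix I I R) (n : ℕ) (x : Ce deg (n + 1) → R) (j : Ce deg n) :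
    dd deg d n x j = ∑ i, x i * d i.1 j.1 := rfl

lemma bdry_ext (d : Matrix I I R) {n : ℕ} (x : Ce deg n → R) (j : I) :
    bdry d (ext0 R deg n x) j = ∑ i, x i * d i.1 j :=
  sum_ext0 x (fun i r => r * d i j) fun _ => zero_mul _

variable {d : Matrix I I R}

lemma bdry_succ (h : IsCx deg d) {n : ℕ} (x : Ce deg (n + 1) → R) :
    bdry d (ext0 R deg (n + 1) x) = ext0 R deg n (dd deg d n x) := by
  funext j
  rw [bdry_ext]
  by_cases c : deg j = n
  · exact (ext0_pos (dd deg d n x) ⟨j, c⟩).symm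
  · rw [ext0_neg _ c]
    refine Finset.sum_eq_zero fun i _ => ?_
    have : d i.1 j = 0 := by
      by_contra e
      have := h.1 _ _ e
      have := i.2
      omega
    rw [this, mul_zero]

lemma bdry_zero (h : IsCx deg d) (x : Ce deg 0 → R) : bdry d (ext0 R deg 0 x) = 0 := by
  funext j
  rw [bdry_ext]
  refine Finset.sum_eq_zero fun i _ => ?_
  have : d i.1 j = 0 := by
    by_contra e
    have := h.1 _ _ e
    have := i.2
    omega
  rw [this, mul_zero]

lemma mem_bd (h : IsCx deg d) {n : ℕ} {x : Ce deg n → R} :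
    ext0 R deg n x ∈ (chains R deg (n + 1)).map (bdry d) ↔ ∃ y, dd deg d n y = x := by
  constructor
  · rintro ⟨y, hy, e⟩
    obtain ⟨y, rfl⟩ := mem_chains.1 hy
    exact ⟨y, ext0_inj (by rw [← bdry_succ h, e])⟩
  · rintro ⟨y, rfl⟩
    exact ⟨_, mem_chains.2 ⟨y, rfl⟩, bdry_succ h y⟩

lemma dd_dd (h : IsCx deg d) (n : ℕ) (x : Ce deg (n + 2) → R) :
    dd deg d n (dd deg d (n + 1) x) = 0 := by
  apply ext0_inj
  rw [← bdry_succ h, ← bdry_succ h, map_zero]
  change (_ ᵥ* d) ᵥ* d = 0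
  rw [vecMul_vecMul, h.2, vecMul_zero]

variable {G : Type} [Group G]

/-- The sum of the coefficients in the group ring. -/
noncomputable def aug (G : Type) [Group G] : MonoidAlgebra ℤ G →ₗ[ℤ] ℤ :=
  Finsupp.linearCombination ℤ (fun _ => 1) ∘ₗ (MonoidAlgebra.coeffLinearEquiv ℤ).toLinearMap

lemma aug_eq (x : MonoidAlgebra ℤ G) : aug G x = x.coeff.sum fun _ a => a := by
  simp [aug, Finsupp.linearCombination_apply]

lemma aug_single (g : G) (a : ℤ) : aug G (MonoidAlgebra.single g a) = a := by simp [aug]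

lemma aug_mul (g : G) (x : MonoidAlgebra ℤ G) :
    aug G (MonoidAlgebra.single g 1 * x) = aug G x := by
  induction x using MonoidAlgebra.induction_linear with
  | zero => simp
  | add x y hx hy => rw [mul_add, map_add, map_add, hx, hy]
  | single h a => simp [MonoidAlgebra.single_mul_single, aug_single]

/-- The standard basis. -/
noncomputable def bs (J G : Type) [Fintype J] :
    Module.Basis (Σ _ : J, G) ℤ (J → MonoidAlgebra ℤ G) :=
  Pi.basis fun _ => MonoidAlgebra.basis G ℤ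

lemma bs_apply {J G : Type} [Fintype J] [DecidableEq J] (x : Σ _ : J, G) :
    bs J G x = Pi.single x.1 (MonoidAlgebra.single x.2 1) := by
  simp [bs, MonoidAlgebra.basis]

/-- Left multiplication. -/
noncomputable def lm (J : Type) (g : G) :
    (J → MonoidAlgebra ℤ G) →ₗ[ℤ] (J → MonoidAlgebra ℤ G) :=
  (LinearMap.mulLeft ℤ (MonoidAlgebra.single g 1)).compLeft J

lemma lm_apply {J : Type} (g : G) (x : J → MonoidAlgebra ℤ G) (j : J) :
    lm J g x j = MonoidAlgebra.single g 1 * x j := rfl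

lemma lm_bs {J : Type} [Fintype J] (g : G) (x : Σ _ : J, G) :
    lm J g (bs J G x) = bs J G ⟨x.1, g * x.2⟩ := by
  classical
  funext j
  rw [lm_apply, bs_apply, bs_apply]
  by_cases c : j = x.1
  · subst c
    simp [MonoidAlgebra.single_mul_single]
  · simp [c]

variable {d : Matrix I I (MonoidAlgebra ℤ G)}

/-- The cellular resolution. -/
noncomputable def cellRes (h : IsRes deg d) : Res G where
  A n := Ce deg n → MonoidAlgebra ℤ G
  ρ n g := lm _ g
  ρ_one n x := funext fun j => by rw [lm_apply, ← MonoidAlgebra.one_def, one_mul]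
  ρ_mul n g k x := funext fun j => by
    simp only [lm_apply, ← mul_assoc, MonoidAlgebra.single_mul_single, mul_one]
  d := dd deg d
  ε := ∑ i, aug G ∘ₗ LinearMap.proj i
  d_eq n g x := funext fun j => by simp only [lm_apply, dd_apply, Finset.mul_sum, mul_assoc]
  ε_eq g x := by simp [LinearMap.sum_apply, lm_apply, aug_mul]
  dd := dd_dd h.1
  ex n x hx := (mem_bd h.1).1 (h.2.2.1 n ⟨mem_chains.2 ⟨x, rfl⟩, by
    change bdry d _ = 0
    rw [bdry_succ h.1, hx, map_zero]⟩)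
  ex0 x := by
    rw [← mem_bd h.1, h.2.2.2 _ (mem_chains.2 ⟨x, rfl⟩),
      sum_ext0 x (fun _ r => r.coeff.sum fun _ a => a) fun _ => by simp]
    simp [LinearMap.sum_apply, aug_eq]
  surj a := by
    obtain ⟨i, hi⟩ := h.2.1
    refine ⟨Pi.single ⟨i, hi⟩ (MonoidAlgebra.single 1 a), ?_⟩
    rw [LinearMap.sum_apply, Finset.sum_eq_single (⟨i, hi⟩ : Ce deg 0)]
    · simp [aug_single]
    · intro j _ hj
      simp [hj]
    · simp
  free n := ⟨Σ _ : Ce deg n, G, inferInstance, bs _ G, fun g s e => by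
    obtain ⟨i, k⟩ := s
    simpa using e, fun g s => lm_bs g s⟩

/-- Change of group on chains. -/
noncomputable def pm (J : Type) {H : Type} [Group H] (f : G →* H) :
    (J → MonoidAlgebra ℤ G) →ₗ[ℤ] (J → MonoidAlgebra ℤ H) :=
  (MonoidAlgebra.mapDomainRingHom ℤ f).toAddMonoidHom.toIntLinearMap.compLeft J

lemma pm_apply {J H : Type} [Group H] (f : G →* H) (x : J → MonoidAlgebra ℤ G) (j : J) :
    pm J f x j = MonoidAlgebra.mapDomainRingHom ℤ f (x j) := rfl

lemma pm_bs {J H : Type} [Fintype J] [Group H] (f : G →* H) (x : Σ _ : J, G) :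
    pm J f (bs J G x) = bs J H ⟨x.1, f x.2⟩ := by
  classical
  funext j
  rw [pm_apply, bs_apply, bs_apply]
  by_cases c : j = x.1
  · subst c
    simp
  · simp [c]

lemma pm_dd {H : Type} [Group H] (f : G →* H) (n : ℕ) (x : Ce deg (n + 1) → MonoidAlgebra ℤ G) :
    dd deg (Pool.Agent.Lib.MP_b65ff2_gt.push f d) n (pm _ f x) = pm _ f (dd deg d n x) := by
  funext j
  rw [dd_apply, pm_apply, dd_apply, map_sum]
  refine Finset.sum_congr rfl fun i _ => ?_
  rw [map_mul, pm_apply]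
  rfl

lemma pm_lm {J H : Type} [Group H] (f : G →* H) {g : G} (hg : f g = 1)
    (x : J → MonoidAlgebra ℤ G) : pm J f (lm J g x) = pm J f x := by
  funext j
  rw [pm_apply, pm_apply, lm_apply, map_mul]
  simp [hg, ← MonoidAlgebra.one_def]

lemma same {J : Type} [Fintype J] (N : Subgroup G) [N.Normal] (x y : Σ _ : J, G)
    (e : (⟨x.1, QuotientGroup.mk' N x.2⟩ : Σ _ : J, G ⧸ N) = ⟨y.1, QuotientGroup.mk' N y.2⟩) :
    ∃ g ∈ N, bs J G x = lm J g (bs J G y) := by
  obtain ⟨i, a⟩ := x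
  obtain ⟨j, b⟩ := y
  obtain ⟨rfl, e⟩ := Sigma.mk.inj_iff.1 e
  have e : (a : G ⧸ N) = b := eq_of_heq e
  refine ⟨a * b⁻¹, ?_, by rw [lm_bs]; simp⟩
  rw [← QuotientGroup.eq_one_iff, QuotientGroup.mk_mul, e, QuotientGroup.mk_inv, mul_inv_cancel]

/-- The cellular chains of the quotient. -/
noncomputable def cellQuo (h : IsRes deg d) (N : Subgroup G) [N.Normal] : Quo (cellRes h) N :=
  have key := fun n => desc_of_basis (bs (Ce deg n) G) (bs (Ce deg n) (G ⧸ N))
    (fun x => ⟨x.1, QuotientGroup.mk' N x.2⟩) (fun ⟨i, q⟩ => by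
      obtain ⟨g, rfl⟩ := QuotientGroup.mk'_surjective N q
      exact ⟨⟨i, g⟩, rfl⟩) (pm _ (QuotientGroup.mk' N)) (pm_bs _)
  { B n := Ce deg n → MonoidAlgebra ℤ (G ⧸ N)
    π n := pm _ (QuotientGroup.mk' N)
    e := dd deg (Pool.Agent.Lib.MP_b65ff2_gt.push (QuotientGroup.mk' N) d)
    comm n x := pm_dd _ n x
    surj n := (key n).1
    inv n g hg x := pm_lm _ ((QuotientGroup.eq_one_iff g).2 hg) x
    desc n T _ _ F hF := (key n).2 T F fun x y e => by
      obtain ⟨g, hg, e⟩ := same N x y e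
      exact (congrArg F e).trans (hF g hg _) }

/-- The homology of a based complex. -/
abbrev Hc (deg : I → ℕ) (d : Matrix I I R) (n : ℕ) : Type :=
  cycles deg d n ⧸ ((chains R deg (n + 1)).map (bdry d)).submoduleOf (cycles deg d n)

lemma cell_isH (h : IsRes deg d) (N : Subgroup G) [N.Normal]
    (h' : IsCx deg (Pool.Agent.Lib.MP_b65ff2_gt.push (QuotientGroup.mk' N) d)) (n : ℕ) :
    (cellQuo h N).IsH n
      (Hc deg (Pool.Agent.Lib.MP_b65ff2_gt.push (QuotientGroup.mk' N) d) n) := by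
  set d' := Pool.Agent.Lib.MP_b65ff2_gt.push (QuotientGroup.mk' N) d
  have hZ : ∀ z : Ce deg n → MonoidAlgebra ℤ (G ⧸ N),
      z ∈ (cellQuo h N).Z n ↔ bdry d' (ext0 (MonoidAlgebra ℤ (G ⧸ N)) deg n z) = 0 := fun z => by
    cases n with
    | zero => exact ⟨fun _ => bdry_zero h' z, fun _ => trivial⟩
    | succ n =>
      rw [bdry_succ h', map_eq_zero_iff _ ext0_inj]
      exact Iff.rfl
  let j : (cellQuo h N).Z n →+ cycles deg d' n := AddMonoidHom.mk'
    (fun z => ⟨ext0 (MonoidAlgebra ℤ (G ⧸ N)) deg n z.1, mem_chains.2 ⟨_, rfl⟩, (hZ z.1).1 z.2⟩)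
    fun a b => Subtype.ext (map_add (ext0 (MonoidAlgebra ℤ (G ⧸ N)) deg n) a.1 b.1)
  refine ⟨(Submodule.mkQ _).toAddMonoidHom.comp j, (Submodule.mkQ_surjective _).comp fun c => ?_,
    fun z => (Submodule.Quotient.mk_eq_zero _).trans (mem_bd h')⟩
  obtain ⟨y, hy⟩ := mem_chains.1 c.2.1
  exact ⟨⟨y, (hZ y).2 (hy ▸ c.2.2)⟩, Subtype.ext hy⟩

end Pool.Agent.Lib.MP_b65ff2_gt.V
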