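import Pool.Agent.Lib.MP_b65ff2_gt.NDef2

namespace Pool.Agent.Lib.MP_b65ff2_gt

/-- Singular homology with integer coefficients. -/
noncomputable def SH (n : ℕ) (Y : Type) [TopologicalSpace Y] : AddCommGrpCat.{0} :=
  ((AlgebraicTopology.singularHomologyFunctor AddCommGrpCat.{0} n).obj (AddCommGrpCat.of ℤ)).obj
    (TopCat.of Y)

/-- The normalised alternating sum of the logarithms of the orders of the torsion subgroups of the
singular homology groups of the quotient of `X` by `N`. -/
noncomputable def altSing {G : Type} [Group G] (X : Type) [TopologicalSpace X] [MulAction G X]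
    (m : ℕ) (N : Subgroup G) : ℝ :=
  ∑ n ∈ Finset.range (m + 1),
    (-1 : ℝ) ^ n * (Real.log (torsCard (SH n (MulAction.orbitRel.Quotient N X))) / N.index)

end Pool.Agent.Lib.MP_b65ff2_gt
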