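import Pool.Agent.Lib.MP_b65ff2_gt.V.Sing

/-! Singular chains of a contractible free `G`-space form a free resolution, and the singular chains
of a quotient covering are its coinvariants. -/

namespace Pool.Agent.Lib.MP_b65ff2_gt.V

open CategoryTheory Set Function AlgebraicTopology

variable {X Y : Type} [TopologicalSpace X] [TopologicalSpace Y]

/-- Sum of the coefficients. -/
noncomputable def eps (n : ℕ) : Ch n X →ₗ[ℤ] ℤ := Finsupp.linearCombination ℤ fun _ => 1

@[simp] lemma eps_single {n : ℕ} (s : Sx n X) (a : ℤ) : eps n (Finsupp.single s a) = a := by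
  simp [eps]

lemma eps_push {n : ℕ} (f : C(X, Y)) (c : Ch n X) : eps n (push n f c) = eps n c :=
  ch_ext (f := eps n ∘ₗ push n f) (fun s => by simp) c

lemma eps_bd (c : Ch 1 X) : eps 0 (bd 0 c) = 0 :=
  ch_ext (f := eps 0 ∘ₗ bd 0) (g := 0) (fun s => by simp [bd_single, Fin.sum_univ_succ]) c

lemma push_const {n : ℕ} (y : Y) (c : Ch n X) :
    push n (ContinuousMap.const X y) c = Finsupp.single (ContinuousMap.const _ y) (eps n c) :=
  ch_ext (g := Finsupp.lsingle (ContinuousMap.const _ y) ∘ₗ eps n) (fun s => by simp) c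

lemma bd_const (n : ℕ) (y : Y) (a : ℤ) :
    bd n (Finsupp.single (ContinuousMap.const _ y) a) =
      if Even n then 0 else Finsupp.single (ContinuousMap.const _ y) a := by
  rw [bd_single]
  simp only [ContinuousMap.const_comp]
  rw [← Finset.sum_smul, Fin.sum_univ_eq_sum_range (fun i => (-1 : ℤ) ^ i), neg_one_geom_sum]
  simp only [Nat.even_add, even_two, iff_true]
  split_ifs <;> simp

lemma acyclic [ContractibleSpace X] {n : ℕ} {c : Ch n X} (hc : D n c = 0)
    (h0 : n = 0 → eps n c = 0) : ∃ e, bd n e = c := by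
  obtain ⟨y, hy⟩ := id_nullhomotopic X
  obtain ⟨e, he⟩ := push_homotopic hy hc
  rw [push_id, push_const, sub_eq_iff_eq_add] at he
  by_cases hn : Even n
  · have : eps n c = 0 := by
      cases n with
      | zero => exact h0 rfl
      | succ n =>
        have h1 := bd_push (ContinuousMap.const X y) c
        rw [show bd n c = 0 from hc, map_zero, push_const, bd_const,
          if_neg (by simpa [Nat.even_add_one] using hn)] at h1
        exact Finsupp.single_eq_zero.1 h1
    exact ⟨e, by rw [he, this]; simp⟩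
  · refine ⟨e + Finsupp.single (ContinuousMap.const _ y) (eps n c), ?_⟩
    rw [map_add, bd_const, if_neg hn, ← he]

instance {n : ℕ} : ContractibleSpace (Sp n) :=
  (convex_stdSimplex ℝ _).contractibleSpace ⟨_, single_mem_stdSimplex ℝ 0⟩

instance {n : ℕ} : LocallyPathConnectedSpace (Sp n) :=
  (convex_stdSimplex ℝ _).locallyPathConnectedSpace

/-- A vertex. -/
def vx (n : ℕ) : Sp n := ⟨_, single_mem_stdSimplex ℝ 0⟩

variable {G : Type} [Group G] [MulAction G X] [ContinuousConstSMul G X]

/-- Translation. -/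
def tr (X : Type) [TopologicalSpace X] [MulAction G X] [ContinuousConstSMul G X] (g : G) :
    C(X, X) := ⟨fun x => g • x, continuous_const_smul g⟩

/-- The singular resolution. -/
noncomputable def singRes [ContractibleSpace X] (fr : ∀ (g : G) (x : X), g • x = x → g = 1) :
    Res G where
  A n := Ch n X
  ρ n g := push n (tr X g)
  ρ_one n x := by
    rw [show tr X (1 : G) = ContinuousMap.id X from ContinuousMap.ext fun x => one_smul G x,
      push_id]
  ρ_mul n g h x := by
    rw [push_push]
    congr 2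
    exact ContinuousMap.ext fun x => mul_smul g h x
  d := bd
  ε := eps 0
  d_eq n g x := bd_push _ x
  ε_eq g x := eps_push _ x
  dd := bd_bd
  ex n x hx := acyclic (n := n + 1) hx fun h => absurd h n.succ_ne_zero
  ex0 x := ⟨fun h => acyclic rfl fun _ => h, fun ⟨y, hy⟩ => hy ▸ eps_bd y⟩
  surj a := ⟨Finsupp.single (ContinuousMap.const _ (Classical.arbitrary X)) a, eps_single _ _⟩
  free n := ⟨Sx n X, inferInstance, Finsupp.basisSingleOne,
    fun g s h => fr g (s (vx n)) (DFunLike.congr_fun h (vx n)), fun g s => by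
      simp only [Finsupp.coe_basisSingleOne, push_single]
      rfl⟩

/-- The singular chains of the quotient. -/
noncomputable def singQuo [ContractibleSpace X] (fr : ∀ (g : G) (x : X), g • x = x → g = 1)
    (N : Subgroup G) (p : C(X, Y)) (cov : IsCoveringMap p) (sj : Surjective p)
    (fib : ∀ a b, p a = p b ↔ ∃ g ∈ N, g • b = a) : Quo (singRes fr) N :=
  have lift : ∀ n, Surjective fun t : Sx n X => p.comp t := fun n s => by
    obtain ⟨x, hx⟩ := sj (s (vx n))
    obtain ⟨t, ⟨-, ht⟩, -⟩ := cov.existsUnique_continuousMap_lifts s (vx n) x hx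
    exact ⟨t, ContinuousMap.ext (congrFun ht)⟩
  have key := fun n => desc_of_basis (Finsupp.basisSingleOne (R := ℤ) (ι := Sx n X))
    (Finsupp.basisSingleOne (R := ℤ) (ι := Sx n Y)) _ (lift n) (push n p) fun s => by simp
  have hp : ∀ g ∈ N, p.comp (tr X g) = p := fun g hg =>
    ContinuousMap.ext fun x => (fib _ _).2 ⟨g, hg, rfl⟩
  { B n := Ch n Y
    π n := push n p
    e := bd
    comm _ x := bd_push p x
    surj n := (key n).1
    inv n g hg x := (push_push (tr X g) p x).trans (by rw [hp g hg]; rfl)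
    desc n T _ _ F hF := (key n).2 T F fun s t h => by
      obtain ⟨g, hg, e⟩ := (fib _ _).1 (DFunLike.congr_fun h (vx n))
      have : s = (tr X g).comp t := ContinuousMap.ext (congrFun (cov.eq_of_comp_eq s.continuous
        ((tr X g).comp t).continuous (funext fun x => (DFunLike.congr_fun h x).trans
          ((fib _ _).2 ⟨g, hg, rfl⟩).symm) (vx n) e.symm))
      subst this
      exact (congrArg F (push_single (tr X g) t 1).symm).trans (hF g hg _) }

lemma Rep.add {n : ℕ} {c c' : Ch n X} {h h' : (K X).homology n} (r : Rep n c h)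
    (r' : Rep n c' h') : Rep n (c + c') (h + h') := by
  obtain ⟨z, hz, rfl⟩ := r
  obtain ⟨z', hz', rfl⟩ := r'
  exact ⟨z + z', by rw [map_add, map_add, hz, hz'], map_add _ _ _⟩

lemma sing_isH [ContractibleSpace X] (fr : ∀ (g : G) (x : X), g • x = x → g = 1)
    (N : Subgroup G) (p : C(X, Y)) (cov : IsCoveringMap p) (sj : Surjective p)
    (fib : ∀ a b, p a = p b ↔ ∃ g ∈ N, g • b = a) (n : ℕ) :
    (singQuo fr N p cov sj fib).IsH n ((K Y).homology n) := by
  have hZ : ∀ z : Ch n Y, z ∈ (singQuo fr N p cov sj fib).Z n ↔ D n z = 0 := fun z => by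
    cases n with
    | zero => exact ⟨fun _ => rfl, fun _ => trivial⟩
    | succ n => exact Iff.rfl
  choose cl hcl using fun z : (singQuo fr N p cov sj fib).Z n => exists_rep ((hZ z.1).1 z.2)
  refine ⟨AddMonoidHom.mk' cl fun a b => ((hcl (a + b)).eq_iff ((hcl a).add (hcl b))).2
    ⟨0, (sub_self _).trans (map_zero _).symm⟩, fun h => ?_, fun z => ?_⟩
  · obtain ⟨c, r⟩ := exists_rep' h
    exact ⟨⟨c, (hZ c).2 r.cyc⟩, ((hcl _).eq_iff r).2 ⟨0, by rw [map_zero, sub_self]⟩⟩
  · exact ((hcl z).eq_iff (rep_zero n)).trans (exists_congr fun e =>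
      ⟨fun h => h.symm.trans (sub_zero _), fun h => (sub_zero _).trans h.symm⟩)

end Pool.Agent.Lib.MP_b65ff2_gt.V
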