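import Pool.Agent.Lib.MP_b65ff2_gt.NDef2

/-! Transport of the cubulation and of the `L2`-torsion along an isomorphism of groups. -/

namespace Pool.Agent.Lib.MP_b65ff2_gt.V

open Function Filter Topology

set_option linter.unusedSectionVars false

open Classical in
lemma inner_delta {X : Type} (x : X) (f : L2 X) : inner ℂ (delta x) f = f x := by
  unfold delta
  rw [lp.inner_single_left]
  simp

lemma exists_unitary {X X' : Type} (e : X ≃ X') :
    ∃ U : L2 X ≃ₗᵢ[ℂ] L2 X', ∀ x, U (delta x) = delta (e x) := by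
  let b : HilbertBasis X' ℂ (L2 X') := default
  have hb : ∀ y, b y = delta y := fun y =>
    (@HilbertBasis.repr_symm_single _ _ _ _ _ _ (fun _ _ => Classical.propDecidable _) b y).symm
  have hsp : ⊤ ≤ (Submodule.span ℂ (Set.range (b ∘ e))).topologicalClosure := by
    rw [e.surjective.range_comp, b.dense_span]
  let c := HilbertBasis.mk (b.orthonormal.comp e e.injective) hsp
  refine ⟨c.repr.symm, fun x => ?_⟩
  refine (@HilbertBasis.repr_symm_single _ _ _ _ _ _ (fun _ _ => Classical.propDecidable _)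
    c x).trans ?_
  rw [HilbertBasis.coe_mk, comp_apply, hb]

section

variable {H K : Type} [NormedAddCommGroup H] [InnerProductSpace ℂ H] [CompleteSpace H]
  [NormedAddCommGroup K] [InnerProductSpace ℂ K] [CompleteSpace K] (U : H ≃ₗᵢ[ℂ] K)

lemma conj_lap (D : H →L[ℂ] H) : lap (U.conjStarAlgEquiv D) = U.conjStarAlgEquiv (lap D) := by
  simp only [lap, map_add, map_mul, map_star]

lemma conj_log (D : H →L[ℂ] H) (ε : ℝ) :
    logAdd (U.conjStarAlgEquiv (lap D)) ε = U.conjStarAlgEquiv (logAdd (lap D) ε) := by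
  have sa : IsSelfAdjoint (lap D) :=
    (IsSelfAdjoint.star_mul_self D).add (IsSelfAdjoint.mul_star_self D)
  have sp : spectrum ℝ (U.conjStarAlgEquiv (lap D)) = spectrum ℝ (lap D) :=
    AlgEquiv.spectrum_eq (U.conjStarAlgEquiv.toAlgEquiv.restrictScalars ℝ) _
  unfold logAdd
  by_cases c : ContinuousOn (fun t : ℝ => Real.log (t + ε)) (spectrum ℝ (lap D))
  · refine (StarAlgHomClass.map_cfc (S := ℂ) U.conjStarAlgEquiv _ _ c ?_ sa (sa.map _)).symm
    exact (continuous_const.clm_comp (continuous_id.clm_comp continuous_const) :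
      Continuous fun x : H →L[ℂ] H => (U : H →L[ℂ] K) ∘L x ∘L (U.symm : K →L[ℂ] H))
  · rw [cfc_apply_of_not_continuousOn _ c, cfc_apply_of_not_continuousOn _ (sp ▸ c), map_zero]

end

variable {G G' I : Type} [Group G] [Group G'] [Fintype I] [DecidableEq I] {deg : I → ℕ}
  {d : Matrix I I (MonoidAlgebra ℤ G)}

theorem l2_push (φ : G ≃* G') {m : ℕ} {ρ : ℝ} (h : HasL2Torsion deg d m ρ) :
    HasL2Torsion deg (push φ.toMonoidHom d) m ρ := by
  obtain ⟨D, op, inj, r, hr, e⟩ := h
  obtain ⟨U, hU⟩ := exists_unitary (φ.toEquiv.prodCongr (Equiv.refl I))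
  have hU' : ∀ g i, U (delta (g, i)) = delta (φ g, i) := fun g i => hU (g, i)
  refine ⟨U.conjStarAlgEquiv D, fun ⟨a, i⟩ ⟨b, j⟩ => ?_, ?_, r, fun p => ?_, e⟩
  · obtain ⟨a, rfl⟩ := φ.surjective a
    obtain ⟨b, rfl⟩ := φ.surjective b
    rw [← inner_delta, ← hU', ← hU', LinearIsometryEquiv.conjStarAlgEquiv_apply_apply,
      U.symm_apply_apply, U.inner_map_map, inner_delta, op]
    congr 1
    change _ = Finsupp.mapDomain φ (d i j).coeff ((φ a)⁻¹ * φ b)
    rw [← map_inv, ← map_mul, Finsupp.mapDomain_apply φ.injective]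
  · unfold LapInj
    rw [conj_lap]
    exact U.injective.comp (inj.comp U.symm.injective)
  · refine (hr p).congr fun ε => Finset.sum_congr rfl fun i _ => ?_
    rw [conj_lap, conj_log, diagCoeff, diagCoeff, ← map_one φ, ← hU',
      LinearIsometryEquiv.conjStarAlgEquiv_apply_apply, U.symm_apply_apply, U.inner_map_map]

theorem cub_push {X : Type} [TopologicalSpace X] [MulAction G X] [MulAction G' X] (φ : G ≃* G')
    (hφ : ∀ (g : G) (x : X), φ g • x = g • x) (h : IsCub X deg d) :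
    IsCub X deg (push φ.toMonoidHom d) := by
  obtain ⟨χ, f, h1, h2, h3, h4⟩ := h
  refine ⟨χ, fun i k b => (φ (f i k b).1, (f i k b).2), h1, fun x => ?_, fun i k hk b => ?_,
    fun i j => ?_⟩
  · obtain ⟨y, ⟨y1, y2⟩, hy⟩ := h2 x
    refine ⟨(φ y.1, y.2), ⟨y1, (hφ _ _).trans y2⟩, fun ⟨g, z⟩ ⟨z1, z2⟩ => ?_⟩
    obtain ⟨g, rfl⟩ := φ.surjective g
    rw [← hy (g, z) ⟨z1, (hφ _ _).symm.trans z2⟩]
  · exact ⟨(h3 i k hk b).1, fun t => ((h3 i k hk b).2 t).trans (hφ _ _).symm⟩
  · change MonoidAlgebra.mapDomainRingHom ℤ φ.toMonoidHom (d i j) = _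
    rw [h4, map_sum]
    refine Finset.sum_congr rfl fun k _ => ?_
    rw [map_zsmul, map_sub]
    dsimp only
    split_ifs <;> simp

end Pool.Agent.Lib.MP_b65ff2_gt.V
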