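import Pool.Agent.Lib.MP_b65ff2_gt.V.Res
import Pool.Agent.Lib.MP_b65ff2_gt.V.Defs
import Pool.Agent.Lib.MP_b65ff2_gt.V.Top
import Pool.Agent.Lib.MP_b65ff2_gt.V.Cell
import Pool.Agent.Lib.MP_b65ff2_gt.V.Tr
import Pool.Agent.Lib.MP_b65ff2_gt.V.Asph

namespace Pool.Agent.Lib.MP_b65ff2_gt

open Filter Topology Function

/-- Singular homology of a quotient covering is the homology of the coinvariants. -/
theorem sh_equiv {G X Y I : Type} [Group G] [TopologicalSpace X] [TopologicalSpace Y]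
    [MulAction G X] [ContinuousConstSMul G X] [ContractibleSpace X] [Fintype I] [DecidableEq I]
    {deg : I → ℕ} {d : Matrix I I (MonoidAlgebra ℤ G)} (h : IsRes deg d)
    (fr : ∀ (g : G) (x : X), g • x = x → g = 1) (N : Subgroup G) [N.Normal] (p : C(X, Y))
    (cov : IsCoveringMap p) (sj : Surjective p) (fib : ∀ a b, p a = p b ↔ ∃ g ∈ N, g • b = a)
    (n : ℕ) : Nonempty (SH n Y ≃+ V.Hc deg (push (QuotientGroup.mk' N) d) n) :=
  V.Quo.equiv _ _ (V.sing_isH fr N p cov sj fib n) (V.cell_isH h N (isCx_push h.1 _) n)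

lemma hc_fg {Q I : Type} [Group Q] [Finite Q] [Fintype I] [DecidableEq I] (deg : I → ℕ)
    (d : Matrix I I (MonoidAlgebra ℤ Q)) (n : ℕ) : AddGroup.FG (V.Hc deg d n) := by
  have := Module.Finite.of_basis (V.bs I Q)
  exact Module.Finite.iff_addGroup_fg.1 inferInstance

theorem neg_sing : ∃ (M : Type) (_ : TopologicalSpace M) (_ : T2Space M)
    (_ : SecondCountableTopology M) (_ : ChartedSpace (EuclideanSpace ℝ (Fin 3)) M)
    (_ : CompactSpace M) (_ : PathConnectedSpace M) (x : M),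
    (∀ n, Subsingleton (π_ (n + 2) M x)) ∧
    ∃ (X : Type) (_ : TopologicalSpace X) (_ : ContractibleSpace X)
      (_ : MulAction (FundamentalGroup M x) X) (p : X → M)
      (hp : IsQuotientCoveringMap p (FundamentalGroup M x)) (e : p ⁻¹' {x}),
      (∀ γ : FundamentalGroup M x, γ⁻¹ • e.1 = (hp.isCoveringMap.monodromyPerm x γ e).1) ∧
      ∃ (I : Type) (_ : Fintype I) (_ : DecidableEq I) (deg : I → ℕ)
        (d : Matrix I I (MonoidAlgebra ℤ (FundamentalGroup M x))),
        IsCub X deg d ∧ (∀ i, deg i ≤ 3) ∧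
        ∃ N : ℕ → Subgroup (FundamentalGroup M x), N 0 = ⊤ ∧ (∀ k, (N k).Normal) ∧
          (∀ k, (N k).FiniteIndex) ∧ Antitone N ∧ ⨅ k, N k = ⊥ ∧
          (∀ k n, AddGroup.FG (SH n (MulAction.orbitRel.Quotient (N k) X))) ∧
          ∃ ρ < 0, HasL2Torsion deg d 3 ρ ∧ Tendsto (fun k => altSing X 3 (N k)) atTop (𝓝 0) := by
  obtain ⟨G, X, _, _, _, _, _, _, _, _, _, fr, cpt, I, _, _, deg, d, res, cub, d3, N, nN, N0, fN,
    anti, inf, ρ, hρ, hL, lim⟩ := neg_res
  have := ChartedSpace.locallyCompactSpace (EuclideanSpace ℝ (Fin 3)) X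
  have : IsCancelSMul G X := isCancelSMul_iff_eq_one_of_smul_eq.2 fr
  let M := MulAction.orbitRel.Quotient G X
  let p : X → M := Quotient.mk _
  have hp : IsQuotientCoveringMap p G :=
    isQuotientCoveringMap_quotientMk_of_properlyDiscontinuousSMul
  let e0 : X := Classical.arbitrary X
  let e : p ⁻¹' {p e0} := ⟨e0, rfl⟩
  let φ : FundamentalGroup M (p e0) ≃* G :=
    (hp.fundamentalGroupEquiv e).trans (MulEquiv.inv' G).symm
  let _ : MulAction (FundamentalGroup M (p e0)) X := MulAction.compHom X φ.toMonoidHom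
  have hφ : ∀ (γ : FundamentalGroup M (p e0)) (y : X), γ • y = φ γ • y := fun _ _ => rfl
  have hφ' : ∀ (g : G) (y : X), φ.symm g • y = g • y := fun g y => by
    rw [hφ, φ.apply_symm_apply]
  have cc : ContinuousConstSMul (FundamentalGroup M (p e0)) X :=
    ⟨fun γ => continuous_const_smul (φ γ)⟩
  have hq : IsQuotientCoveringMap p (FundamentalGroup M (p e0)) :=
    { hp.toIsQuotientMap, cc with
      apply_eq_iff_mem_orbit := hp.apply_eq_iff_mem_orbit.trans
        ⟨fun ⟨g, hg⟩ => ⟨φ.symm g, (hφ' _ _).trans hg⟩, fun ⟨γ, hγ⟩ => ⟨φ γ, hγ⟩⟩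
      disjoint := fun y => (hp.disjoint y).imp fun U hU =>
        ⟨hU.1, fun γ hγ => φ.injective ((hU.2 (φ γ) hγ).trans (map_one φ).symm)⟩ }
  let N' : ℕ → Subgroup (FundamentalGroup M (p e0)) := fun k => (N k).comap φ.toMonoidHom
  have key : ∀ k n, Nonempty (SH n (MulAction.orbitRel.Quotient (N' k) X) ≃+
      V.Hc deg (push (QuotientGroup.mk' (N k)) d) n) := fun k n => by
    have hk : IsQuotientCoveringMap (Quotient.mk (MulAction.orbitRel (N' k) X)) (N' k) :=
      { isQuotientMap_quotient_mk' with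
        continuous_const_smul := fun γ => continuous_const_smul γ.1
        apply_eq_iff_mem_orbit := Quotient.eq''
        disjoint := fun y => (hq.disjoint y).imp fun U hU =>
          ⟨hU.1, fun γ hγ => Subtype.ext (hU.2 γ.1 hγ)⟩ }
    refine sh_equiv res fr (N k) ⟨_, hk.continuous⟩ hk.isCoveringMap hk.surjective
      (fun a b => hk.apply_eq_iff_mem_orbit.trans ⟨fun ⟨γ, hγ⟩ => ⟨φ γ.1, γ.2, hγ⟩,
        fun ⟨g, hg, h⟩ => ⟨⟨φ.symm g, ?_⟩, (hφ' _ _).trans h⟩⟩) n
    simpa [N'] using hg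
  refine ⟨M, inferInstance, inferInstance, ContinuousConstSMul.secondCountableTopology,
    inferInstance, cpt, hp.surjective.pathConnectedSpace hp.continuous, p e0,
    V.asph hp.isCoveringMap e0, X, inferInstance, inferInstance, inferInstance, p, hq, e,
    fun γ => ?_, I, inferInstance, inferInstance, deg, push φ.symm.toMonoidHom d,
    V.cub_push φ.symm hφ' cub, d3, N', by simp [N', N0], fun k => (nN k).comap _, fun k => ⟨?_⟩,
    fun a b h => Subgroup.comap_mono (anti h), ?_, fun k n => ?_, ρ, hρ, V.l2_push φ.symm hL,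
    lim.congr fun k => Finset.sum_congr rfl fun n _ => ?_⟩
  · rw [hφ, map_inv]
    exact (congrArg (· • e0) (inv_inv _)).trans hp.unop_fundamentalGroupToMulOpposite_smul
  · rw [Subgroup.index_comap_of_surjective _ φ.surjective]
    exact (fN k).index_ne_zero
  · rw [← Subgroup.comap_iInf, inf, MonoidHom.comap_bot, MonoidHom.ker_eq_bot_iff]
    exact φ.injective
  · obtain ⟨j⟩ := key k n
    have := fN k
    have := hc_fg deg (push (QuotientGroup.mk' (N k)) d) n
    exact AddGroup.fg_of_surjective (f := j.symm.toAddMonoidHom) j.symm.surjective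
  · obtain ⟨j⟩ := key k n
    rw [ntr_tors j.toAddMonoidHom j.injective fun y _ => j.surjective y,
      Subgroup.index_comap_of_surjective _ φ.surjective]
    rfl

end Pool.Agent.Lib.MP_b65ff2_gt
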