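import Pool.Agent.Lib.MP_b65ff2_gt.NL2
import Pool.Agent.Lib.MP_b65ff2_gt.NChain
import Pool.Agent.Lib.MP_b65ff2_gt.NT02
import Pool.Agent.Lib.MP_b65ff2_gt.NCone
import Pool.Agent.Lib.MP_b65ff2_gt.NCub
import Pool.Agent.Lib.MP_b65ff2_gt.NCon

namespace Pool.Agent.Lib.MP_b65ff2_gt

open Matrix Filter Topology

set_option linter.unusedSectionVars false

noncomputable section

theorem neg_res : ∃ (G X : Type) (_ : Group G) (_ : TopologicalSpace X) (_ : T2Space X)
    (_ : SecondCountableTopology X) (_ : ChartedSpace (EuclideanSpace ℝ (Fin 3)) X)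
    (_ : ContractibleSpace X) (_ : MulAction G X)
    (_ : ContinuousConstSMul G X) (_ : ProperlyDiscontinuousSMul G X),
    (∀ (g : G) (x : X), g • x = x → g = 1) ∧ CompactSpace (MulAction.orbitRel.Quotient G X) ∧
    ∃ (I : Type) (_ : Fintype I) (_ : DecidableEq I) (deg : I → ℕ)
      (d : Matrix I I (MonoidAlgebra ℤ G)), IsRes deg d ∧ IsCub X deg d ∧ (∀ i, deg i ≤ 3) ∧
      ∃ (N : ℕ → Subgroup G) (_ : ∀ k, (N k).Normal), N 0 = ⊤ ∧ (∀ k, (N k).FiniteIndex) ∧
        Antitone N ∧ ⨅ k, N k = ⊥ ∧ ∃ ρ < 0, HasL2Torsion deg d 3 ρ ∧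
          Tendsto (fun k => altTors deg d 3 (N k)) atTop (𝓝 0) := by
  obtain ⟨i1⟩ := cone_homeo.elim NAct.charts
  have := nl2_count
  obtain ⟨Q, _, _, M, anti, sep, ht⟩ := chain
  obtain ⟨ρ, hρ, hL⟩ := l2main
  let N : ℕ → Subgroup (GG L11) := fun k =>
    Nat.casesOn k ⊤ fun k => (M k).f.ker.subgroupOf (GG L11)
  have nN : ∀ k, (N k).Normal := fun k => by
    cases k
    exacts [inferInstanceAs (⊤ : Subgroup (GG L11)).Normal, Subgroup.normal_subgroupOf]
  have fN : ∀ k, (N k).FiniteIndex := fun k => by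
    cases k
    exacts [inferInstanceAs (⊤ : Subgroup (GG L11)).FiniteIndex,
      inferInstanceAs (Subgroup.subgroupOf _ _).FiniteIndex]
  refine ⟨GG L11, Dav L11, inferInstance, inferInstance, inferInstance,
    TopologicalSpace.Subtype.secondCountableTopology _, i1, dav_contr L11, inferInstance,
    ⟨fun g => continuous_const_smul g.1⟩, ⟨fun hK hL =>
      (NAct.proper hK hL).preimage (f := Subtype.val) Subtype.val_injective.injOn⟩,
    fun g x hx => Subtype.ext (NAct.free g.1 g.2 x hx), NAct.cocompact,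
    Iota L11, inferInstance, inferInstance, degI L11, dG L11, dG_res L11, isCub L11,
    fun i => clique_le i.2.1, N, nN, rfl, fN, antitone_nat_of_succ_le fun k => ?_, ?_, ρ, hρ, hL,
    ?_⟩
  · cases k
    exacts [le_top, fun g hg => anti (Nat.le_succ _) hg]
  · refine eq_bot_iff.2 fun g hg => ?_
    by_contra h
    obtain ⟨k, hk⟩ := sep g fun e => h (Subgroup.mem_bot.2 (Subtype.ext e))
    exact hk (Subgroup.mem_iInf.1 hg (k + 1))
  rw [← tendsto_add_atTop_iff_nat 1]
  refine squeeze_zero_norm (a := fun k : ℕ => 2 ^ 11 * (1 / ((k : ℝ) + 1))) (fun k => ?_)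
    (by simpa using tendsto_one_div_add_atTop_nhds_zero_nat.const_mul ((2 : ℝ) ^ 11))
  have := fN (k + 1)
  obtain ⟨hc, e, e1, e2⟩ := transfer (M k) (QuotientGroup.mk' (N (k + 1)))
    (QuotientGroup.mk'_surjective _) fun g => QuotientGroup.eq_one_iff g
  have t : ∀ n, tors (degI L11) (push (QuotientGroup.mk' (N (k + 1))) (dG L11)) n =
      tc ((M k).dZ n) := fun n =>
    tors_tc (isCx_push (dG_res L11).1 _) (fun x : (M k).Cell => x.1.2.card) (M k).bd e e1 e2 n
  have p : (0 : ℝ) < (N (k + 1)).index := by exact_mod_cast Nat.pos_of_ne_zero this.index_ne_zero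
  have h3 := ht k
  rw [hc, ← Subgroup.index_eq_card] at h3
  simp only [altTors, t, Finset.sum_range_succ, Finset.sum_range_zero, PM.tc_zero, PM.tc_two,
    PM.tc_three]
  have l0 : 0 ≤ Real.log (tc ((M k).dZ 1)) := Real.log_natCast_nonneg _
  simp only [Nat.cast_one, Real.log_one, zero_div, mul_zero, add_zero, zero_add, pow_one, neg_mul,
    one_mul, norm_neg, Real.norm_of_nonneg (div_nonneg l0 p.le)]
  rw [div_le_iff₀ p]
  refine h3.trans (le_of_eq ?_)
  simp only [Fintype.card_fin]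
  push_cast
  ring

end

end Pool.Agent.Lib.MP_b65ff2_gt
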