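import Pool.Agent.Lib.MP_b65ff2_gt.V.Alg

/-! Concrete integral singular chains and the comparison with Mathlib (port of the rational kit). -/

namespace Pool.Agent.Lib.MP_b65ff2_gt.V

open CategoryTheory Limits Set Function AlgebraicTopology

abbrev Sp (n : ℕ) := stdSimplex ℝ (Fin (n + 1))
abbrev Sx (n : ℕ) (X : Type) [TopologicalSpace X] := C(Sp n, X)
abbrev Ch (n : ℕ) (X : Type) [TopologicalSpace X] := Sx n X →₀ ℤ

variable {X Y Z : Type} [TopologicalSpace X] [TopologicalSpace Y] [TopologicalSpace Z]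

noncomputable def face {n : ℕ} (i : Fin (n + 2)) : C(Sp n, Sp (n + 1)) :=
  ⟨stdSimplex.map i.succAbove, stdSimplex.continuous_map _⟩

noncomputable def bd (n : ℕ) : Ch (n + 1) X →ₗ[ℤ] Ch n X :=
  ∑ i : Fin (n + 2), ((-1 : ℤ) ^ i.val) • Finsupp.lmapDomain ℤ ℤ (fun s => s.comp (face i))

noncomputable def push (n : ℕ) (f : C(X, Y)) : Ch n X →ₗ[ℤ] Ch n Y :=
  Finsupp.lmapDomain ℤ ℤ (fun s => f.comp s)

lemma bd_single {n : ℕ} (s : Sx (n + 1) X) (a : ℤ) :
    bd n (Finsupp.single s a) =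
      ∑ i : Fin (n + 2), ((-1 : ℤ) ^ i.val) • Finsupp.single (s.comp (face i)) a := by
  simp [bd, LinearMap.sum_apply]

@[simp] lemma push_single {n : ℕ} (f : C(X, Y)) (s : Sx n X) (a : ℤ) :
    push n f (Finsupp.single s a) = Finsupp.single (f.comp s) a := by
  simp [push]

lemma ch_ext {n : ℕ} {M : Type} [AddCommGroup M] [Module ℤ M] {f g : Ch n X →ₗ[ℤ] M}
    (h : ∀ s, f (Finsupp.single s 1) = g (Finsupp.single s 1)) (c : Ch n X) : f c = g c := by
  have : f = g := by
    apply Finsupp.lhom_ext'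
    intro s
    apply LinearMap.ext_ring
    simpa using h s
  rw [this]

lemma bd_push {n : ℕ} (f : C(X, Y)) (c : Ch (n + 1) X) :
    bd n (push (n + 1) f c) = push n f (bd n c) :=
  ch_ext (f := bd n ∘ₗ push (n + 1) f) (g := push n f ∘ₗ bd n) (fun s => by
    simp [bd_single, map_sum, ContinuousMap.comp_assoc]) c

lemma push_push {n : ℕ} (f : C(X, Y)) (g : C(Y, Z)) (c : Ch n X) :
    push n g (push n f c) = push n (g.comp f) c :=
  ch_ext (f := push n g ∘ₗ push n f) (fun s => by simp [ContinuousMap.comp_assoc]) c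

lemma push_id {n : ℕ} (c : Ch n X) : push n (ContinuousMap.id X) c = c :=
  ch_ext (g := LinearMap.id) (fun s => by simp) c

/-- the boundary in every degree -/
noncomputable def D : (n : ℕ) → Ch n X →ₗ[ℤ] Ch (n - 1) X
  | 0 => 0
  | n + 1 => bd n

lemma D_push {n : ℕ} (f : C(X, Y)) (c : Ch n X) : D n (push n f c) = push (n - 1) f (D n c) := by
  cases n with
  | zero => simp [D]
  | succ n => exact bd_push f c

/-! comparison with Mathlib -/

open scoped Simplicial

noncomputable abbrev ZZ : AddCommGrpCat.{0} := AddCommGrpCat.of ℤ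

noncomputable abbrev SS (X : Type) [TopologicalSpace X] : SSet.{0} :=
  TopCat.toSSet.obj (TopCat.of X)

noncomputable abbrev K (X : Type) [TopologicalSpace X] : ChainComplex AddCommGrpCat.{0} ℕ :=
  (SS X).chainComplex ZZ

noncomputable abbrev Kmap (f : C(X, Y)) : K X ⟶ K Y :=
  SSet.chainComplexMap (TopCat.toSSet.map (TopCat.ofHom f)) ZZ

noncomputable def sx (n : ℕ) : Sx n X ≃ (SS X) _⦋n⦌ :=
  ((TopCat.of X).toSSetObjEquiv (Opposite.op ⦋n⦌)).symm

noncomputable def toK (n : ℕ) : Ch n X →+ (K X).X n :=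
  Finsupp.liftAddHom fun s => ((SS X).ιChainComplex (R := ZZ) (sx n s)).hom

noncomputable def ofK (n : ℕ) : (K X).X n ⟶ AddCommGrpCat.of (Ch n X) :=
  Cofan.IsColimit.desc ((SS X).isColimitChainComplexXCofan ZZ n) fun x =>
    AddCommGrpCat.ofHom (Finsupp.singleAddHom ((sx n).symm x))

lemma iota_ofK (n : ℕ) (x : (SS X) _⦋n⦌) :
    (SS X).ιChainComplex (R := ZZ) x ≫ ofK n =
      AddCommGrpCat.ofHom (Finsupp.singleAddHom ((sx n).symm x)) :=
  Cofan.IsColimit.fac ((SS X).isColimitChainComplexXCofan ZZ n) _ x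

lemma toK_single (n : ℕ) (s : Sx n X) (a : ℤ) :
    toK n (Finsupp.single s a) = ((SS X).ιChainComplex (R := ZZ) (sx n s)).hom a :=
  Finsupp.liftAddHom_apply_single _ _ _

lemma ch_ext' {n : ℕ} {M : Type} [AddCommGroup M] {f g : Ch n X →+ M}
    (h : ∀ s a, f (Finsupp.single s a) = g (Finsupp.single s a)) (c : Ch n X) : f c = g c := by
  rw [Finsupp.addHom_ext h]

lemma toK_bij (n : ℕ) : Bijective (toK (X := X) n) := by
  constructor
  · apply LeftInverse.injective (g := (ofK n).hom)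
    intro c
    refine ch_ext' (f := (ofK n).hom.comp (toK n)) (g := AddMonoidHom.id _) (fun s a => ?_) c
    have := congrArg (fun φ => φ.hom a) (iota_ofK n (sx n s))
    simpa [toK_single] using this
  · apply RightInverse.surjective (g := (ofK n).hom)
    intro c
    have : ofK n ≫ AddCommGrpCat.ofHom (toK n) = 𝟙 ((K X).X n) := by
      apply SSet.chainComplex_hom_ext
      intro x
      rw [← Category.assoc, iota_ofK]
      apply AddCommGrpCat.hom_ext
      refine AddMonoidHom.ext fun a => ?_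
      simp [toK_single]
    exact congrArg (fun φ => φ.hom c) this

lemma d_toK (n : ℕ) (c : Ch (n + 1) X) :
    ((K X).d (n + 1) n).hom (toK (n + 1) c) = toK n (bd n c) := by
  refine ch_ext' (f := ((K X).d (n + 1) n).hom.comp (toK (n + 1)))
    (g := (toK n).comp (bd n).toAddMonoidHom) (fun s a => ?_) c
  have := congrArg (fun φ => φ.hom a) ((SS X).ιChainComplex_d ZZ (sx (n + 1) s))
  simp only [AddMonoidHom.comp_apply, toK_single, LinearMap.toAddMonoidHom_coe, bd_single, map_sum,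
    map_zsmul]
  refine this.trans ?_
  have e : ∀ (A B : AddCommGrpCat.{0}) (x : A), ∃ F : (A ⟶ B) →+ B, ∀ φ, F φ = φ.hom x :=
    fun A B x => ⟨AddMonoidHom.mk' (fun φ => φ.hom x) fun _ _ => rfl, fun _ => rfl⟩
  obtain ⟨F, hF⟩ := e ZZ ((K X).X n) a
  simp only [← hF, map_sum, map_zsmul]
  rfl

lemma f_toK (n : ℕ) (f : C(X, Y)) (c : Ch n X) :
    ((Kmap f).f n).hom (toK n c) = toK n (push n f c) := by
  refine ch_ext' (f := ((Kmap f).f n).hom.comp (toK n))
    (g := (toK n).comp (push n f).toAddMonoidHom) (fun s a => ?_) c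
  have := congrArg (fun φ => φ.hom a)
    (SSet.ι_chainComplexMap_f _ _ (TopCat.toSSet.map (TopCat.ofHom f)) ZZ (sx n s))
  simp only [AddMonoidHom.comp_apply, toK_single, LinearMap.toAddMonoidHom_coe, push_single]
  exact this

lemma D_toK (n : ℕ) (c : Ch n X) :
    ((K X).d n (n - 1)).hom (toK n c) = toK (n - 1) (D n c) := by
  cases n with
  | zero => simp [D]
  | succ n => exact d_toK n c

lemma D_bd (n : ℕ) (c : Ch (n + 1) X) : D n (bd n c) = 0 := by
  apply (toK_bij _).1
  rw [← D_toK, ← d_toK, map_zero]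
  exact congrArg (fun φ => φ.hom (toK (n + 1) c)) ((K X).d_comp_d (n + 1) n (n - 1))

lemma bd_bd (n : ℕ) (c : Ch (n + 2) X) : bd n (bd (n + 1) c) = 0 := D_bd (n + 1) c

/-! homology classes -/

/-- the chain c is a cycle with class h -/
def Rep (n : ℕ) (c : Ch n X) (h : (K X).homology n) : Prop :=
  ∃ z : (K X).cycles n, ((K X).iCycles n).hom z = toK n c ∧ ((K X).homologyπ n).hom z = h

lemma next_eq (n : ℕ) : (ComplexShape.down ℕ).next n = n - 1 := by
  cases n with
  | zero => simp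
  | succ n => simp

lemma iC_inj (n : ℕ) : Injective ((K X).iCycles n).hom :=
  (AddCommGrpCat.mono_iff_injective _).1 inferInstance

lemma Rep.cyc {n : ℕ} {c : Ch n X} {h : (K X).homology n} (r : Rep n c h) : D n c = 0 := by
  obtain ⟨z, hz, -⟩ := r
  apply (toK_bij _).1
  rw [← D_toK, ← hz, map_zero]
  exact congrArg (fun φ => φ.hom z) ((K X).iCycles_d n (n - 1))

lemma exists_rep {n : ℕ} {c : Ch n X} (hc : D n c = 0) : ∃ h, Rep n c h := by
  have h0 : AddCommGrpCat.ofHom (zmultiplesHom _ (toK n c)) ≫ (K X).d n (n - 1) = 0 := by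
    apply AddCommGrpCat.hom_ext
    apply AddMonoidHom.ext_int
    simp [D_toK, hc]
  refine ⟨_, ((K X).liftCycles _ (n - 1) (next_eq n) h0).hom (1 : ℤ), ?_, rfl⟩
  exact (congrArg (fun φ => φ.hom (1 : ℤ))
    ((K X).liftCycles_i _ (n - 1) (next_eq n) h0)).trans (one_zsmul (toK n c))

lemma exists_rep' {n : ℕ} (h : (K X).homology n) : ∃ c, Rep n c h := by
  obtain ⟨z, hz⟩ := (AddCommGrpCat.epi_iff_surjective ((K X).homologyπ n)).1 inferInstance h
  obtain ⟨c, hc⟩ := (toK_bij n).2 (((K X).iCycles n).hom z)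
  exact ⟨c, z, hc.symm, hz⟩

lemma Rep.map {n : ℕ} {c : Ch n X} {h : (K X).homology n} (r : Rep n c h) (f : C(X, Y)) :
    Rep n (push n f c) ((HomologicalComplex.homologyMap (Kmap f) n).hom h) := by
  obtain ⟨z, hz, rfl⟩ := r
  refine ⟨(HomologicalComplex.cyclesMap (Kmap f) n).hom z, ?_, ?_⟩
  · rw [← f_toK, ← hz]
    exact congrArg (fun φ => φ.hom z) (HomologicalComplex.cyclesMap_i (Kmap f) n)
  · exact (congrArg (fun φ => φ.hom z) (HomologicalComplex.homologyπ_naturality (Kmap f) n)).symm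

lemma Rep.eq_iff {n : ℕ} {c c' : Ch n X} {h h' : (K X).homology n} (r : Rep n c h)
    (r' : Rep n c' h') : h = h' ↔ ∃ e, c - c' = bd n e := by
  obtain ⟨z, hz, rfl⟩ := r
  obtain ⟨z', hz', rfl⟩ := r'
  have hex : (ShortComplex.mk _ _ ((K X).toCycles_comp_homologyπ (n + 1) n)).Exact :=
    ShortComplex.exact_of_g_is_cokernel _ ((K X).homologyIsCokernel (n + 1) n (by simp))
  have key : ∀ e, ((K X).iCycles n).hom (((K X).toCycles (n + 1) n).hom (toK (n + 1) e)) =
      toK n (bd n e) := fun e => by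
    rw [← d_toK]
    exact congrArg (fun φ => φ.hom (toK (n + 1) e)) ((K X).toCycles_i (n + 1) n)
  rw [← sub_eq_zero, ← map_sub]
  constructor
  · intro h0
    obtain ⟨y, hy⟩ := (ShortComplex.ab_exact_iff _).1 hex (z - z') h0
    obtain ⟨e, rfl⟩ := (toK_bij (n + 1)).2 y
    refine ⟨e, (toK_bij n).1 ?_⟩
    rw [map_sub, ← hz, ← hz', ← map_sub, ← key]
    exact congrArg _ hy.symm
  · rintro ⟨e, he⟩
    have : z - z' = ((K X).toCycles (n + 1) n).hom (toK (n + 1) e) := by
      apply iC_inj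
      rw [key, map_sub, hz, hz', ← map_sub, he]
    rw [this]
    exact congrArg (fun φ => φ.hom (toK (n + 1) e)) ((K X).toCycles_comp_homologyπ (n + 1) n)

lemma rep_zero (n : ℕ) : Rep n (0 : Ch n X) 0 := ⟨0, by simp, by simp⟩

lemma hf_homotopic {f g : C(X, Y)} (h : f.Homotopic g) (n : ℕ) :
    HomologicalComplex.homologyMap (Kmap f) n = HomologicalComplex.homologyMap (Kmap g) n := by
  obtain ⟨H⟩ := h
  exact TopCat.Homotopy.congr_homologyMap_singularChainComplexFunctor
    (f := TopCat.ofHom f) (g := TopCat.ofHom g) H ZZ n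

lemma push_homotopic {f g : C(X, Y)} (h : f.Homotopic g) {n : ℕ} {c : Ch n X} (hc : D n c = 0) :
    ∃ e, push n f c - push n g c = bd n e := by
  obtain ⟨k, r⟩ := exists_rep hc
  exact ((r.map f).eq_iff (r.map g)).1 (congrArg (fun φ => φ.hom k) (hf_homotopic h n))

end Pool.Agent.Lib.MP_b65ff2_gt.V
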